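import Mathlib
import Pool.Agent.H98.Code.Defs
import Pool.Agent.H64.Pent.Basic

set_option autoImplicit false

/-!
The code of a permutation `p` of `ZMod n` (MP_a46c6f_co): the even subgraphs of the permutation graph
of `p`, given by their edges `a` on `C₁` and `b` on `C₂`, read off at the matching edges.
-/

namespace Pool.Agent.H57.Code

open Pool.Agent.H98.Code

variable {n : ℕ}

/-- `(a, b)` is the pair of traces of an even subgraph on `C₁`, `C₂` -/
def Ev (p : Equiv.Perm (ZMod n)) (a b : ZMod n → ZMod 2) : Prop :=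
  ∀ i, a (i - 1) + a i = b (p i - 1) + b (p i)

/-- the word of `(a, b)` -/
def word (p : Equiv.Perm (ZMod n)) (a b : ZMod n → ZMod 2) : ZMod n → K :=
  fun i => (a (i - 1) + a i, a i + b (p i))

/-- the code of `p` -/
def Lp (p : Equiv.Perm (ZMod n)) : Submodule (ZMod 2) (ZMod n → K) where
  carrier := {u | ∃ a b, Ev p a b ∧ u = word p a b}
  zero_mem' := ⟨0, 0, fun i => by simp, by funext i; simp [word]; rfl⟩
  add_mem' := by
    rintro u v ⟨a, b, h, rfl⟩ ⟨a', b', h', rfl⟩
    refine ⟨a + a', b + b', fun i => ?_, ?_⟩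
    · have e1 := h i
      have e2 := h' i
      simp only [Pi.add_apply]
      linear_combination e1 + e2
    · funext i
      simp only [word, Pi.add_apply, Prod.mk_add_mk, Prod.mk.injEq]
      constructor <;> ring
  smul_mem' := by
    rintro c u ⟨a, b, h, rfl⟩
    refine ⟨c • a, c • b, fun i => ?_, ?_⟩
    · have e1 := h i
      simp only [Pi.smul_apply, smul_eq_mul]
      linear_combination c * e1
    · funext i
      simp only [word, Pi.smul_apply, Prod.smul_mk, smul_eq_mul, Prod.mk.injEq]
      constructor <;> ring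

lemma mem_Lp (p : Equiv.Perm (ZMod n)) (u : ZMod n → K) :
    u ∈ Lp p ↔ ∃ a b, Ev p a b ∧ u = word p a b := Iff.rfl

lemma word_mem (p : Equiv.Perm (ZMod n)) (a b : ZMod n → ZMod 2) (h : Ev p a b) :
    word p a b ∈ Lp p := ⟨a, b, h, rfl⟩

/-- the word of the complementary edge set is the same -/
lemma word_compl (p : Equiv.Perm (ZMod n)) (a b : ZMod n → ZMod 2) :
    word p (fun i => 1 + a i) (fun j => 1 + b j) = word p a b := by
  funext i
  simp only [word, Prod.mk.injEq]
  generalize a (i - 1) = x1
  generalize a i = x2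
  generalize b (p i) = x3
  revert x1 x2 x3
  decide

lemma Ev.compl {p : Equiv.Perm (ZMod n)} {a b : ZMod n → ZMod 2} (h : Ev p a b) :
    Ev p (fun i => 1 + a i) (fun j => 1 + b j) := by
  intro i
  have e1 := h i
  show 1 + a (i - 1) + (1 + a i) = 1 + b (p i - 1) + (1 + b (p i))
  linear_combination e1

lemma form_word [NeZero n] (p : Equiv.Perm (ZMod n)) (u : ZMod n → K) (a b : ZMod n → ZMod 2) :
    form u (word p a b) =
      ∑ i, ((u i).1 * (a i + b (p i)) + (u i).2 * (a (i - 1) + a i)) := rfl

lemma sum_shift' [NeZero n] (F G : ZMod n → ZMod 2) :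
    ∑ i, F i * G (i - 1) = ∑ i, F (i + 1) * G i := by
  rw [← Equiv.sum_comp (Equiv.addRight (1 : ZMod n)) (fun i => F i * G (i - 1))]
  refine Finset.sum_congr rfl fun i _ => ?_
  show F (i + 1) * G (i + 1 - 1) = _
  rw [add_sub_cancel_right]

/-- the linear system of the pairs `(a, b)` -/
def sys (p : Equiv.Perm (ZMod n)) :
    ((ZMod n → ZMod 2) × (ZMod n → ZMod 2)) →ₗ[ZMod 2]
      ((ZMod n → ZMod 2) × (ZMod n → ZMod 2) × (ZMod n → ZMod 2)) where
  toFun q := (fun i => q.1 (i - 1) + q.1 i, fun i => q.2 (p i - 1) + q.2 (p i),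
    fun i => q.1 i + q.2 (p i))
  map_add' q q' := by
    refine Prod.ext ?_ (Prod.ext ?_ ?_)
    · funext i
      show q.1 (i - 1) + q'.1 (i - 1) + (q.1 i + q'.1 i) =
        q.1 (i - 1) + q.1 i + (q'.1 (i - 1) + q'.1 i)
      ring
    · funext i
      show q.2 (p i - 1) + q'.2 (p i - 1) + (q.2 (p i) + q'.2 (p i)) =
        q.2 (p i - 1) + q.2 (p i) + (q'.2 (p i - 1) + q'.2 (p i))
      ring
    · funext i
      show q.1 i + q'.1 i + (q.2 (p i) + q'.2 (p i)) = q.1 i + q.2 (p i) + (q'.1 i + q'.2 (p i))
      ring
  map_smul' c q := by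
    refine Prod.ext ?_ (Prod.ext ?_ ?_)
    · funext i
      show c * q.1 (i - 1) + c * q.1 i = c * (q.1 (i - 1) + q.1 i)
      ring
    · funext i
      show c * q.2 (p i - 1) + c * q.2 (p i) = c * (q.2 (p i - 1) + q.2 (p i))
      ring
    · funext i
      show c * q.1 i + c * q.2 (p i) = c * (q.1 i + q.2 (p i))
      ring

lemma dual_pi [NeZero n] {E : Type*} [AddCommGroup E] [Module (ZMod 2) E]
    (φ : Module.Dual (ZMod 2) E) (f : (ZMod n → ZMod 2) →ₗ[ZMod 2] E) (r : ZMod n → ZMod 2) :
    φ (f r) = ∑ i, φ (f (Pi.single i 1)) * r i := by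
  have h1 : r = ∑ i, r i • (Pi.single i (1 : ZMod 2) : ZMod n → ZMod 2) := by
    funext j
    rw [Finset.sum_apply, Finset.sum_eq_single j]
    · simp
    · intro i _ hi
      rw [Pi.smul_apply, Pi.single_eq_of_ne hi.symm, smul_zero]
    · intro h
      exact absurd (Finset.mem_univ j) h
  conv_lhs => rw [h1]
  rw [map_sum, map_sum]
  refine Finset.sum_congr rfl fun i _ => ?_
  rw [map_smul, map_smul, smul_eq_mul, mul_comm]

lemma coeff_zero [NeZero n] (c : ZMod n → ZMod 2)
    (h : ∀ a : ZMod n → ZMod 2, ∑ i, c i * a i = 0) (k : ZMod n) : c k = 0 := by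
  have h1 := h (Pi.single k 1)
  rw [Finset.sum_eq_single k] at h1
  · rw [Pi.single_eq_same, mul_one] at h1
    exact h1
  · intro i _ hi
    rw [Pi.single_eq_of_ne hi, mul_zero]
  · intro h2
    exact absurd (Finset.mem_univ k) h2

theorem isCode [NeZero n] (p : Equiv.Perm (ZMod n)) : IsCode (Lp p) := by
  refine ⟨?_, ?_⟩
  · rintro u ⟨a, b, h, rfl⟩ v ⟨a', b', h', rfl⟩
    exact Pool.Agent.H64.Pent.pairing p a b a' b' h h'
  · intro u hu
    have key : ((fun i => (u i).1, fun i => (u i).1, fun i => (u i).2) :
        (ZMod n → ZMod 2) × (ZMod n → ZMod 2) × (ZMod n → ZMod 2)) ∈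
        LinearMap.range (sys p) := by
      rw [← Subspace.forall_mem_dualAnnihilator_apply_eq_zero_iff]
      intro φ hφ
      rw [Submodule.mem_dualAnnihilator] at hφ
      let ι1 := LinearMap.inl (ZMod 2) (ZMod n → ZMod 2) ((ZMod n → ZMod 2) × (ZMod n → ZMod 2))
      let ι2 := (LinearMap.inr (ZMod 2) (ZMod n → ZMod 2)
        ((ZMod n → ZMod 2) × (ZMod n → ZMod 2))).comp
          (LinearMap.inl (ZMod 2) (ZMod n → ZMod 2) (ZMod n → ZMod 2))
      let ι3 := (LinearMap.inr (ZMod 2) (ZMod n → ZMod 2)
        ((ZMod n → ZMod 2) × (ZMod n → ZMod 2))).comp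
          (LinearMap.inr (ZMod 2) (ZMod n → ZMod 2) (ZMod n → ZMod 2))
      let l : ZMod n → ZMod 2 := fun i => φ (ι1 (Pi.single i 1))
      let m : ZMod n → ZMod 2 := fun i => φ (ι2 (Pi.single i 1))
      let v : ZMod n → ZMod 2 := fun i => φ (ι3 (Pi.single i 1))
      have hdec : ∀ r s t : ZMod n → ZMod 2,
          φ ((r, s, t) : (ZMod n → ZMod 2) × (ZMod n → ZMod 2) × (ZMod n → ZMod 2)) =
            ∑ i, l i * r i + ∑ i, m i * s i + ∑ i, v i * t i := by
        intro r s t
        have h1 : ((r, s, t) : (ZMod n → ZMod 2) × (ZMod n → ZMod 2) × (ZMod n → ZMod 2)) =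
            ι1 r + ι2 s + ι3 t := by
          refine Prod.ext ?_ (Prod.ext ?_ ?_)
          · show r = r + 0 + 0
            simp
          · show s = 0 + s + 0
            simp
          · show t = 0 + 0 + t
            simp
        rw [h1, map_add, map_add, dual_pi φ ι1 r, dual_pi φ ι2 s, dual_pi φ ι3 t]
      have ha : ∀ a b : ZMod n → ZMod 2, ∑ i, l i * (a (i - 1) + a i) +
          ∑ i, m i * (b (p i - 1) + b (p i)) + ∑ i, v i * (a i + b (p i)) = 0 := by
        intro a b
        have h1 := hφ (sys p (a, b)) ⟨(a, b), rfl⟩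
        rw [← h1]
        exact (hdec _ _ _).symm
      have c1 : ∀ k, l (k + 1) + l k + v k = 0 := by
        refine coeff_zero _ fun a => ?_
        have h1 := ha a 0
        simp only [Pi.zero_apply, add_zero, mul_zero, Finset.sum_const_zero] at h1
        rw [← h1]
        simp only [add_mul, mul_add, Finset.sum_add_distrib]
        rw [sum_shift']
      have c2 : ∀ k, m (p.symm (p k + 1)) + m k + v k = 0 := by
        have c3 : ∀ j, m (p.symm (j + 1)) + m (p.symm j) + v (p.symm j) = 0 := by
          refine coeff_zero _ fun b => ?_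
          have h1 := ha 0 b
          simp only [Pi.zero_apply, zero_add, mul_zero, Finset.sum_const_zero] at h1
          rw [← h1]
          simp only [add_mul, mul_add, Finset.sum_add_distrib]
          have e1 : ∑ i, m i * b (p i - 1) = ∑ i, m (p.symm (i + 1)) * b i := by
            rw [← Equiv.sum_comp p.symm (fun i => m i * b (p i - 1)),
              ← sum_shift' (fun j => m (p.symm j)) b]
            refine Finset.sum_congr rfl fun i _ => ?_
            rw [Equiv.apply_symm_apply]
          have e2 : ∑ i, m i * b (p i) = ∑ i, m (p.symm i) * b i := by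
            rw [← Equiv.sum_comp p.symm (fun i => m i * b (p i))]
            refine Finset.sum_congr rfl fun i _ => ?_
            rw [Equiv.apply_symm_apply]
          have e3 : ∑ i, v i * b (p i) = ∑ i, v (p.symm i) * b i := by
            rw [← Equiv.sum_comp p.symm (fun i => v i * b (p i))]
            refine Finset.sum_congr rfl fun i _ => ?_
            rw [Equiv.apply_symm_apply]
          rw [e1, e2, e3]
        intro k
        have := c3 (p k)
        rwa [Equiv.symm_apply_apply] at this
      rw [hdec]
      let a' : ZMod n → ZMod 2 := fun i => l (i + 1)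
      let b' : ZMod n → ZMod 2 := fun j => m (p.symm (j + 1))
      have d1 : ∀ i, a' (i - 1) = l i := fun i => by
        show l (i - 1 + 1) = l i
        rw [sub_add_cancel]
      have d2 : ∀ i, b' (p i - 1) = m i := fun i => by
        show m (p.symm (p i - 1 + 1)) = m i
        rw [sub_add_cancel, Equiv.symm_apply_apply]
      have f1 : ∀ i, a' i = l i + v i := fun i => by
        have := c1 i
        show l (i + 1) = l i + v i
        generalize l (i + 1) = x1 at *
        generalize l i = x2 at *
        generalize v i = x3 at *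
        revert x1 x2 x3
        decide
      have f2 : ∀ i, b' (p i) = m i + v i := fun i => by
        have := c2 i
        show m (p.symm (p i + 1)) = m i + v i
        generalize m (p.symm (p i + 1)) = x1 at *
        generalize m i = x2 at *
        generalize v i = x3 at *
        revert x1 x2 x3
        decide
      have hev : Ev p a' b' := by
        intro i
        rw [d1, d2, f1, f2]
        generalize l i = x1
        generalize m i = x2
        generalize v i = x3
        revert x1 x2 x3
        decide
      have hf := hu _ (word_mem p a' b' hev)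
      rw [form_word] at hf
      rw [← hf, ← Finset.sum_add_distrib, ← Finset.sum_add_distrib]
      refine Finset.sum_congr rfl fun i _ => ?_
      rw [d1, f1, f2]
      generalize l i = x1
      generalize m i = x2
      generalize v i = x3
      generalize (u i).1 = x4
      generalize (u i).2 = x5
      revert x1 x2 x3 x4 x5
      decide
    obtain ⟨⟨a, b⟩, hab⟩ := key
    have h1 : ∀ i, a (i - 1) + a i = (u i).1 := fun i => congrFun (congrArg Prod.fst hab) i
    have h2 : ∀ i, b (p i - 1) + b (p i) = (u i).1 :=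
      fun i => congrFun (congrArg (fun q => q.2.1) hab) i
    have h3 : ∀ i, a i + b (p i) = (u i).2 :=
      fun i => congrFun (congrArg (fun q => q.2.2) hab) i
    refine ⟨a, b, fun i => (h1 i).trans (h2 i).symm, ?_⟩
    funext i
    exact Prod.ext (h1 i).symm (h3 i).symm

lemma const_of [NeZero n] (f : ZMod n → ZMod 2) (h : ∀ i, f (i - 1) = f i) (i : ZMod n) :
    f i = f 0 := by
  have key : ∀ k : ℕ, f (k : ZMod n) = f 0 := by
    intro k
    induction k with
    | zero => simp
    | succ k ih =>
      have h1 := h ((k + 1 : ℕ) : ZMod n)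
      rw [← h1, ← ih]
      push_cast
      rw [add_sub_cancel_right]
  have h1 := key i.val
  rwa [ZMod.natCast_zmod_val] at h1

/-- the `{0, z}`-words of the code of `p` are `0` and the word `z` everywhere -/
theorem zonly [NeZero n] (p : Equiv.Perm (ZMod n)) (u : ZMod n → K) (hu : u ∈ Lp p)
    (hz : ZOnly u) : u = 0 ∨ u = fun _ => z := by
  obtain ⟨a, b, hev, rfl⟩ := hu
  have h1 : ∀ i, a (i - 1) = a i := by
    intro i
    have := hz i
    simp only [word] at this
    generalize a (i - 1) = x1 at *
    generalize a i = x2 at *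
    revert x1 x2
    decide
  have h2 : ∀ j, b (j - 1) = b j := by
    intro j
    have h3 := hev (p.symm j)
    rw [h1, Equiv.apply_symm_apply] at h3
    generalize a (p.symm j) = x3 at *
    generalize b (j - 1) = x1 at *
    generalize b j = x2 at *
    revert x1 x2 x3
    decide
  have h3 := const_of a h1
  have h4 := const_of b h2
  have h5 : ∀ i, word p a b i = (0, a 0 + b 0) := by
    intro i
    simp only [word]
    rw [h3 (i - 1), h3 i, h4 (p i)]
    generalize a 0 = x1
    generalize b 0 = x2
    revert x1 x2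
    decide
  rcases (show ∀ w : ZMod 2, w = 0 ∨ w = 1 by decide) (a 0 + b 0) with h6 | h6
  · left
    funext i
    rw [h5, h6]
    rfl
  · right
    funext i
    rw [h5, h6]
    rfl

/-- the word `z` everywhere lies in the code of `p` -/
theorem z_mem (p : Equiv.Perm (ZMod n)) : (fun _ => z) ∈ Lp p := by
  refine ⟨fun _ => 1, fun _ => 0, fun i => (show (1 : ZMod 2) + 1 = 0 + 0 by decide), ?_⟩
  funext i
  show z = (1 + 1, 1 + 0)
  decide

end Pool.Agent.H57.Code
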