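import Mathlib
import Pool.Agent.H57.Code.Lp
import Pool.Agent.H98.Code.Defs
import Pool.Agent.H77.Code.Incl

set_option autoImplicit false

/-!
Indecomposable weights on permutation graphs (MP_a46c6f_co): the code of the permutation is critical,
and no circuit is removable.
-/

namespace Pool.Agent.H57.Code

open SimpleGraph Pool.Agent.H5.Goddyn Pool.Agent.H98.TC Pool.Agent.H64.Pent Pool.Agent.H98.Code

variable {V : Type*}

/-- The weight `w` of `G` is *indecomposable*: it is not the sum of two nonzero weights `w₁`, `w₂` of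
`G` each of which is eulerian and bridgeless on its support. -/
def Indecomposable (G : SimpleGraph V) (w : Sym2 V → ℕ) : Prop :=
  ¬ ∃ w₁ w₂ : Sym2 V → ℕ, (∀ e ∈ G.edgeSet, w e = w₁ e + w₂ e) ∧
    (∃ e ∈ G.edgeSet, w₁ e ≠ 0) ∧ (∃ e ∈ G.edgeSet, w₂ e ≠ 0) ∧
    Eulerian (support G w₁) w₁ ∧ Bridgeless (support G w₁) ∧
    Eulerian (support G w₂) w₂ ∧ Bridgeless (support G w₂)

/-- every nonzero `z`-free word splits -/
theorem splits_of_indecomposable (G : SimpleGraph V) (M C₁ C₂ : G.Subgraph)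
    (h : IsPermutationGraph G M C₁ C₂) (hmin : Indecomposable G (wt M)) {n : ℕ}
    (hn : 3 ≤ n) (x y : ZMod n → V) (p : Equiv.Perm (ZMod n)) (hx : Numb C₁ x) (hy : Numb C₂ y)
    (hM : ∀ i, M.Adj (x i) (y (p i))) (a b : ZMod n → ZMod 2) (hab : H77.Code.Ev p a b)
    (hz : ∀ i, (H77.Code.word p a b i).1 = 0 → (H77.Code.word p a b i).2 = 0)
    (h0 : ∃ i, H77.Code.word p a b i ≠ 0) :
    ∃ g s t, H77.Code.Ev p s t ∧ H77.Code.word p a b g = 0 ∧ H77.Code.word p s t g = (0, 1) ∧
      ∀ i, i ≠ g → H77.Code.word p s t i = 0 ∨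
        H77.Code.word p s t i = H77.Code.word p a b i := by
  classical
  have : NeZero n := ⟨by omega⟩
  have N := H77.Code.num_of G M C₁ C₂ h hn x y p hx hy hM
  by_contra hcon
  have b1 : Bridgeless (support G (H77.Code.W x y p a b)) := by
    by_contra hb
    exact hcon (H77.Code.split_of_bridge N a b hab hz hb)
  have b2 : Bridgeless (support G (H77.Code.W x y p (fun i => 1 + a i) (fun j => 1 + b j))) := by
    by_contra hb
    refine hcon ?_
    have hz' : ∀ i, (H77.Code.word p (fun i => 1 + a i) (fun j => 1 + b j) i).1 = 0 →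
        (H77.Code.word p (fun i => 1 + a i) (fun j => 1 + b j) i).2 = 0 := by
      intro i
      rw [H77.Code.word_flip]; exact hz i
    obtain ⟨g, s, t, h1, h2, h3, h4⟩ :=
      H77.Code.split_of_bridge N _ _ (H77.Code.ev_flip hab) hz' hb
    refine ⟨g, s, t, h1, by rw [← H77.Code.word_flip]; exact h2, h3, fun i hi => ?_⟩
    rw [← H77.Code.word_flip p a b i]
    exact h4 i hi
  obtain ⟨i₀, hi₀⟩ := h0
  have ht : a (i₀ - 1) + a i₀ = 1 := by
    rcases H59.Pent.z2 (a (i₀ - 1) + a i₀) with h1 | h1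
    · exfalso
      exact hi₀ (Prod.ext h1 (hz i₀ h1))
    · exact h1
  have wM : ∀ i, wt M s(x i, y (p i)) = 2 := by
    intro i
    unfold wt
    rw [if_pos]
    exact hM i
  have wx : ∀ i, wt M s(x i, x (i + 1)) = 1 := by
    intro i
    unfold wt
    rw [if_neg]
    intro hm
    exact ((h.union _ _).2 (Or.inl ((hx.2.2 i _).2 (Or.inr rfl)))).2 hm
  have wy : ∀ i, wt M s(y i, y (i + 1)) = 1 := by
    intro i
    unfold wt
    rw [if_neg]
    intro hm
    exact ((h.union _ _).2 (Or.inr ((hy.2.2 i _).2 (Or.inr rfl)))).2 hm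
  have hsum : ∀ e ∈ G.edgeSet, wt M e = H77.Code.W x y p a b e +
      H77.Code.W x y p (fun i => 1 + a i) (fun j => 1 + b j) e := by
    intro e he
    rcases N.edge e he with ⟨k, rfl⟩ | ⟨k, rfl⟩ | ⟨k, rfl⟩
    · rw [wx, H77.Code.W_x hn N.ix N.hxy, H77.Code.W_x hn N.ix N.hxy]
      rcases H59.Pent.z2 (a k) with h1 | h1 <;> rw [h1] <;> decide
    · rw [wy, H77.Code.W_y hn N.iy N.hxy, H77.Code.W_y hn N.iy N.hxy]
      rcases H59.Pent.z2 (b k) with h1 | h1 <;> rw [h1] <;> decide
    · rw [wM, H77.Code.W_m N.ix N.hxy, H77.Code.W_m N.ix N.hxy]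
      rcases H59.Pent.z2 (a k) with h1 | h1 <;> rcases H59.Pent.z2 (a (k - 1)) with h2 | h2 <;>
        rw [h1, h2] <;> decide
  have hne : ∀ a' : ZMod n → ZMod 2, ∀ b' : ZMod n → ZMod 2, a' (i₀ - 1) + a' i₀ = 1 →
      H77.Code.W x y p a' b' s(x i₀, y (p i₀)) ≠ 0 := by
    intro a' b' h1
    rw [H77.Code.W_m N.ix N.hxy]
    rcases H59.Pent.z2_sum _ _ h1 with ⟨h2, h3⟩ | ⟨h2, h3⟩ <;> rw [h2, h3] <;> decide
  exact hmin ⟨_, _, hsum, ⟨_, N.gm i₀, hne a b ht⟩,
    ⟨_, N.gm i₀, hne _ _ (by
      show (1 + a (i₀ - 1)) + (1 + a i₀) = 1; rw [H77.Code.z2_flip]; exact ht)⟩,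
    H77.Code.eulerian_W N a b hab, b1, H77.Code.eulerian_W N _ _ (H77.Code.ev_flip hab), b2⟩

lemma kadd_self' : ∀ u : K, u + u = 0 := by decide

/-- **the code of the permutation is critical** -/
theorem critical_Lp (G : SimpleGraph V) (M C₁ C₂ : G.Subgraph)
    (h : IsPermutationGraph G M C₁ C₂) (hmin : Indecomposable G (wt M)) {n : ℕ}
    (hn : 3 ≤ n) (x y : ZMod n → V) (p : Equiv.Perm (ZMod n)) (hx : Numb C₁ x) (hy : Numb C₂ y)
    (hM : ∀ i, M.Adj (x i) (y (p i))) : Critical (Lp p) := by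
  rintro u ⟨a, b, hev, rfl⟩ hne hz
  have h0 : ∃ i, H77.Code.word p a b i ≠ 0 := by
    by_contra hcon
    push Not at hcon
    exact hne (funext hcon)
  have hz' : ∀ i, (H77.Code.word p a b i).1 = 0 → (H77.Code.word p a b i).2 = 0 := by
    intro i hi
    rcases H59.Pent.z2 (H77.Code.word p a b i).2 with h1 | h1
    · exact h1
    · exact absurd (Prod.ext hi h1 : word p a b i = z) (hz i)
  obtain ⟨g, s, t, h1, h2, h3, h4⟩ :=
    splits_of_indecomposable G M C₁ C₂ h hmin hn x y p hx hy hM a b hev hz' h0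
  have h2' : word p a b g = 0 := h2
  have h3' : word p s t g = z := h3
  refine ⟨g, word p s t, word_mem p s t h1, word p a b + word p s t,
    (Lp p).add_mem (word_mem p a b hev) (word_mem p s t h1), ?_, h3', ?_, ?_⟩
  · funext i
    show word p s t i + (word p a b i + word p s t i) = word p a b i
    rw [add_left_comm, kadd_self', add_zero]
  · show word p a b g + word p s t g = z
    rw [h2', h3', zero_add]
  · intro i hi
    rcases h4 i hi with h5 | h5
    · exact Or.inl h5
    · right
      have h5' : word p s t i = word p a b i := h5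
      show word p a b i + word p s t i = 0
      rw [h5', kadd_self']

/-- the weight of a circuit is eulerian and bridgeless on its support -/
theorem circuit_weight [Finite V] (G : SimpleGraph V) (C : G.Subgraph) (hC : IsCircuit C)
    (w : Sym2 V → ℕ) (hw : ∀ u v, C.Adj u v → w s(u, v) = 1)
    (hw' : ∀ u v, ¬ C.Adj u v → w s(u, v) = 0) :
    Eulerian (support G w) w ∧ Bridgeless (support G w) := by
  classical
  have hs : ∀ u v, (support G w).Adj u v ↔ C.Adj u v := by
    intro u v
    rw [H77.Code.supp_adj]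
    constructor
    · rintro ⟨h1, h2⟩
      by_contra h3
      rw [hw' u v h3] at h2
      exact absurd h2 (lt_irrefl 0)
    · intro h1
      rw [hw u v h1]
      exact ⟨h1.adj_sub, Nat.one_pos⟩
  have hn : ∀ v, (support G w).neighborSet v = C.neighborSet v := by
    intro v
    ext u
    exact hs v u
  constructor
  · intro v
    have h1 : {u | (support G w).Adj v u ∧ Odd (w s(v, u))} = C.neighborSet v := by
      ext u
      rw [Set.mem_ofPred_eq, hs]
      constructor
      · exact fun h2 => h2.1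
      · intro h2
        have h2' : C.Adj v u := h2
        exact ⟨h2', by rw [hw v u h2']; exact odd_one⟩
    rw [h1]
    by_cases hv : v ∈ C.verts
    · rw [hC.2 v hv]
      exact even_two
    · have : C.neighborSet v = ∅ := by
        rw [Set.eq_empty_iff_forall_notMem]
        intro u hu
        exact hv (C.edge_vert hu)
      rw [this, Set.ncard_empty]
      exact Even.zero
  · have hcyc : (support G w).IsCycles := by
      intro v hv
      rw [hn v] at hv ⊢
      obtain ⟨u, hu⟩ := hv
      exact hC.2 v (C.edge_vert hu)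
    intro e he
    induction e using Sym2.ind with
    | _ a b =>
      rw [isBridge_iff, not_not]
      exact hcyc.reachable_deleteEdges he

/-- **an indecomposable weight has no removable circuit** -/
theorem no_removable [Finite V] (G : SimpleGraph V) (M : G.Subgraph)
    (hM : ∃ u v, M.Adj u v) (hmin : Indecomposable G (wt M)) (C : G.Subgraph) :
    ¬ Removable G (wt M) C := by
  classical
  rintro ⟨hC, w₁, h1, h2, h3⟩
  obtain ⟨v, hv⟩ := hC.1.nonempty
  have hc := hC.2 v hv
  have hne : (C.neighborSet v).Nonempty := by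
    rw [Set.nonempty_iff_ne_empty]
    intro h0
    rw [h0, Set.ncard_empty] at hc
    exact absurd hc (by decide)
  obtain ⟨u, hu⟩ := hne
  have hu' : C.Adj v u := hu
  have hcw := circuit_weight G C hC (fun e => if e ∈ C.edgeSet then 1 else 0)
    (fun u v huv => if_pos (show s(u, v) ∈ C.edgeSet from huv))
    (fun u v huv => if_neg (fun hh : s(u, v) ∈ C.edgeSet => huv hh))
  obtain ⟨a, b, hab⟩ := hM
  refine hmin ⟨w₁, _, h1, ?_, ?_, h2, h3, hcw.1, hcw.2⟩
  · refine ⟨s(a, b), hab.adj_sub, ?_⟩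
    have h4 := h1 s(a, b) hab.adj_sub
    have h5 : wt M s(a, b) = 2 := by
      unfold wt
      rw [if_pos (show s(a, b) ∈ M.edgeSet from hab)]
    rw [h5] at h4
    split_ifs at h4 <;> omega
  · refine ⟨s(v, u), hu'.adj_sub, ?_⟩
    show (if s(v, u) ∈ C.edgeSet then 1 else 0) ≠ 0
    rw [if_pos (show s(v, u) ∈ C.edgeSet from hu')]
    exact one_ne_zero

end Pool.Agent.H57.Code
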