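import Mathlib
import Pool.Agent.H57.Code.Indec
import Pool.Agent.H64.Pent.Final

set_option autoImplicit false

/-!
Indecomposable weights on permutation graphs (MP_a46c6f_co): reduction to codes.
-/

namespace Pool.Agent.H57.Code

open SimpleGraph Pool.Agent.H5.Goddyn Pool.Agent.H98.TC Pool.Agent.H64.Pent Pool.Agent.H98.Code

variable {V : Type*}

/-- If every critical self-dual code whose only nonzero `{0, z}`-word is the word `z` everywhere has
length five (for odd length at least five), then the only indecomposable pair on a permutation graph is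
the Petersen pair. -/
theorem petersen_of_codes
    (hcode : ∀ (n : ℕ) [NeZero n] (L : Submodule (ZMod 2) (ZMod n → K)), 5 ≤ n → n % 2 = 1 →
      IsCode L → (fun _ => z) ∈ L → (∀ u ∈ L, ZOnly u → u = 0 ∨ u = fun _ => z) → Critical L →
      n = 5)
    [Finite V] (G : SimpleGraph V) (M C₁ C₂ : G.Subgraph) (h : IsPermutationGraph G M C₁ C₂)
    (hmin : Indecomposable G (wt M)) : IsPetersenPair G M := by
  obtain ⟨n, x, y, p, hn, hx, hy, hM⟩ := Pool.Agent.H61.Pent.exists_numb G M C₁ C₂ h
  have hrem := no_removable G M ⟨_, _, hM 0⟩ hmin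
  have hC : Crit p := Pool.Agent.H59.Pent.crit_of_removable G M C₁ C₂ h hrem hn x y p hx hy hM
  have hnz : NeZero n := ⟨by omega⟩
  have h5 := Pool.Agent.H73.Pent.big hn p hC
  have hodd := Pool.Agent.H73.Pent.odd_of_crit hn p hC
  have hn5 : n = 5 := hcode n (Lp p) h5 hodd (isCode p) (z_mem p) (zonly p)
    (critical_Lp G M C₁ C₂ h hmin hn x y p hx hy hM)
  subst hn5
  exact fin_both G M C₁ C₂ h hrem hn x y p hx hy hM (Pool.Agent.H73.Pent.pent_of_five p hC)

end Pool.Agent.H57.Code
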