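import Mathlib
import Pool.Agent.H64.Pent.Defs
import Pool.Agent.H98.TC.Conn
import Pool.Agent.H57.Code.Lp

set_option autoImplicit false

/-!
Permutation graphs with a numbering; sub-weights given by sets of edges of `C₁`, `C₂`
(MP_a46c6f_co).
-/

namespace Pool.Agent.H57.Code

open SimpleGraph Pool.Agent.H5.Goddyn Pool.Agent.H98.TC Pool.Agent.H64.Pent

variable {V : Type*} {n : ℕ}

/-- `G` is the permutation graph of `p`, numbered by `x` and `y` -/
structure PG (G : SimpleGraph V) (x y : ZMod n → V) (p : Equiv.Perm (ZMod n)) : Prop where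
  hn : 3 ≤ n
  ix : Function.Injective x
  iy : Function.Injective y
  hxy : ∀ i j, x i ≠ y j
  cov : ∀ v, (∃ i, v = x i) ∨ ∃ i, v = y (p i)
  adjx : ∀ i w, G.Adj (x i) w ↔ w = x (i + 1) ∨ w = x (i - 1) ∨ w = y (p i)
  adjy : ∀ i w, G.Adj (y (p i)) w ↔ w = y (p i + 1) ∨ w = y (p i - 1) ∨ w = x i

lemma one_ne' (hn : 3 ≤ n) (i : ZMod n) : i + 1 ≠ i := by
  intro h
  have h1 : (1 : ZMod n) = 0 := by simpa using h
  have h2 : ((1 : ℕ) : ZMod n) = 0 := by simpa using h1
  rw [ZMod.natCast_eq_zero_iff] at h2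
  exact absurd (Nat.le_of_dvd (by norm_num) h2) (by omega)

lemma two_ne' (hn : 3 ≤ n) (i : ZMod n) : i + 1 ≠ i - 1 := by
  intro h
  have h1 : (2 : ZMod n) = 0 := by
    have : (i + 1) - (i - 1) = 0 := by rw [h, sub_self]
    ring_nf at this
    exact this
  have h2 : ((2 : ℕ) : ZMod n) = 0 := by simpa using h1
  rw [ZMod.natCast_eq_zero_iff] at h2
  exact absurd (Nat.le_of_dvd (by norm_num) h2) (by omega)

theorem pg_of (G : SimpleGraph V) (M C₁ C₂ : G.Subgraph) (h : IsPermutationGraph G M C₁ C₂)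
    (hn : 3 ≤ n) (x y : ZMod n → V) (p : Equiv.Perm (ZMod n)) (hx : Numb C₁ x) (hy : Numb C₂ y)
    (hM : ∀ i, M.Adj (x i) (y (p i))) : PG G x y p := by
  have mx : ∀ i, x i ∈ C₁.verts := fun i => by rw [← hx.2.1]; exact ⟨i, rfl⟩
  have my : ∀ j, y j ∈ C₂.verts := fun j => by rw [← hy.2.1]; exact ⟨j, rfl⟩
  have hMu : ∀ v w w', M.Adj v w → M.Adj v w' → w = w' := by
    intro v w w' h1 h2
    exact (h.perfect.1 (h.perfect.2 v)).unique h1 h2
  refine ⟨hn, hx.1, hy.1, ?_, ?_, ?_, ?_⟩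
  · intro i j hij
    exact Set.disjoint_left.1 h.disjoint (mx i) (hij ▸ my j)
  · intro v
    rcases cover' h v with hv | hv
    · rw [← hx.2.1] at hv
      obtain ⟨i, hi⟩ := hv
      exact Or.inl ⟨i, hi.symm⟩
    · rw [← hy.2.1] at hv
      obtain ⟨j, hj⟩ := hv
      exact Or.inr ⟨p.symm j, by rw [Equiv.apply_symm_apply]; exact hj.symm⟩
  · intro i w
    constructor
    · intro hw
      by_cases hm : M.Adj (x i) w
      · exact Or.inr (Or.inr (hMu _ _ _ hm (hM i)))
      · rcases (h.union (x i) w).1 ⟨hw, hm⟩ with h1 | h1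
        · rcases (hx.2.2 i w).1 h1 with h2 | h2
          · exact Or.inr (Or.inl h2)
          · exact Or.inl h2
        · exact absurd (C₂.edge_vert h1) (Set.disjoint_left.1 h.disjoint (mx i))
    · rintro (h1 | h1 | h1)
      · exact ((hx.2.2 i w).2 (Or.inr h1)).adj_sub
      · exact ((hx.2.2 i w).2 (Or.inl h1)).adj_sub
      · rw [h1]; exact (hM i).adj_sub
  · intro i w
    constructor
    · intro hw
      by_cases hm : M.Adj (y (p i)) w
      · exact Or.inr (Or.inr (hMu _ _ _ hm (hM i).symm))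
      · rcases (h.union (y (p i)) w).1 ⟨hw, hm⟩ with h1 | h1
        · exact absurd (my (p i)) (Set.disjoint_left.1 h.disjoint (C₁.edge_vert h1))
        · rcases (hy.2.2 (p i) w).1 h1 with h2 | h2
          · exact Or.inr (Or.inl h2)
          · exact Or.inl h2
    · rintro (h1 | h1 | h1)
      · exact ((hy.2.2 (p i) w).2 (Or.inr h1)).adj_sub
      · exact ((hy.2.2 (p i) w).2 (Or.inl h1)).adj_sub
      · rw [h1]; exact (hM i).adj_sub.symm

lemma wt_x {G : SimpleGraph V} {M C₁ C₂ : G.Subgraph} (h : IsPermutationGraph G M C₁ C₂)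
    {x : ZMod n → V} (hx : Numb C₁ x)
    (i : ZMod n) : wt M s(x i, x (i + 1)) = 1 := by
  unfold wt
  rw [if_neg]
  rw [Subgraph.mem_edgeSet]
  exact ((h.union _ _).2 (Or.inl ((hx.2.2 i _).2 (Or.inr rfl)))).2

lemma wt_y {G : SimpleGraph V} {M C₁ C₂ : G.Subgraph} (h : IsPermutationGraph G M C₁ C₂)
    {y : ZMod n → V} (hy : Numb C₂ y)
    (i : ZMod n) : wt M s(y i, y (i + 1)) = 1 := by
  unfold wt
  rw [if_neg]
  rw [Subgraph.mem_edgeSet]
  exact ((h.union _ _).2 (Or.inr ((hy.2.2 i _).2 (Or.inr rfl)))).2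

lemma wt_m {G : SimpleGraph V} {M : G.Subgraph}
    {x y : ZMod n → V} {p : Equiv.Perm (ZMod n)} (hM : ∀ i, M.Adj (x i) (y (p i)))
    (i : ZMod n) : wt M s(x i, y (p i)) = 2 := by
  unfold wt
  rw [if_pos]
  rw [Subgraph.mem_edgeSet]
  exact hM i

open Classical in
/-- the sub-weight of the set of edges `(a, b)` of `C₁`, `C₂`, the matching edges in `E` deleted -/
noncomputable def Wt [NeZero n] (x y : ZMod n → V) (p : Equiv.Perm (ZMod n)) (E : Set (ZMod n))
    (a b : ZMod n → ZMod 2) (e : Sym2 V) : ℕ :=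
  (∑ i, if e = s(x i, x (i + 1)) then (a i).val else 0) +
    (∑ j, if e = s(y j, y (j + 1)) then (b j).val else 0) +
    ∑ i, if e = s(x i, y (p i)) then (if i ∈ E then 0 else (a (i - 1)).val + (a i).val) else 0

section

variable {G : SimpleGraph V} {x y : ZMod n → V} {p : Equiv.Perm (ZMod n)} (hG : PG G x y p)
include hG

lemma PG.exx (i k : ZMod n) : s(x i, x (i + 1)) = s(x k, x (k + 1)) ↔ i = k := by
  constructor
  · intro h
    rw [Sym2.eq_iff] at h
    rcases h with h | h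
    · exact hG.ix h.1
    · have h1 := hG.ix h.1
      have h2 := hG.ix h.2
      exfalso
      apply two_ne' hG.hn i
      rw [h2, h1, add_sub_cancel_right]
  · rintro rfl
    rfl

lemma PG.eyy (i k : ZMod n) : s(y i, y (i + 1)) = s(y k, y (k + 1)) ↔ i = k := by
  constructor
  · intro h
    rw [Sym2.eq_iff] at h
    rcases h with h | h
    · exact hG.iy h.1
    · have h1 := hG.iy h.1
      have h2 := hG.iy h.2
      exfalso
      apply two_ne' hG.hn i
      rw [h2, h1, add_sub_cancel_right]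
  · rintro rfl
    rfl

lemma PG.exy (i j k l : ZMod n) : s(x i, x j) ≠ s(y k, y l) := by
  intro h
  rw [Sym2.eq_iff] at h
  rcases h with h | h
  · exact hG.hxy _ _ h.1
  · exact hG.hxy _ _ h.1

lemma PG.exm (i j k l : ZMod n) : s(x i, x j) ≠ s(x k, y l) := by
  intro h
  rw [Sym2.eq_iff] at h
  rcases h with h | h
  · exact hG.hxy _ _ h.2
  · exact hG.hxy _ _ h.1

lemma PG.eym (i j k l : ZMod n) : s(y i, y j) ≠ s(x k, y l) := by
  intro h
  rw [Sym2.eq_iff] at h
  rcases h with h | h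
  · exact hG.hxy _ _ h.1.symm
  · exact hG.hxy _ _ h.2.symm

lemma PG.emm (i k : ZMod n) : s(x i, y (p i)) = s(x k, y (p k)) ↔ i = k := by
  constructor
  · intro h
    rw [Sym2.eq_iff] at h
    rcases h with h | h
    · exact hG.ix h.1
    · exact absurd h.1 (hG.hxy _ _)
  · rintro rfl
    rfl

/-- the three kinds of edges -/
lemma PG.cases {e : Sym2 V} (he : e ∈ G.edgeSet) : (∃ i, e = s(x i, x (i + 1))) ∨
    (∃ j, e = s(y j, y (j + 1))) ∨ ∃ i, e = s(x i, y (p i)) := by
  induction e using Sym2.ind with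
  | _ u v =>
    rw [mem_edgeSet] at he
    rcases hG.cov u with ⟨i, rfl⟩ | ⟨i, rfl⟩
    · rcases (hG.adjx i v).1 he with h | h | h
      · exact Or.inl ⟨i, by rw [h]⟩
      · refine Or.inl ⟨i - 1, ?_⟩
        rw [h, sub_add_cancel, Sym2.eq_swap]
      · exact Or.inr (Or.inr ⟨i, by rw [h]⟩)
    · rcases (hG.adjy i v).1 he with h | h | h
      · exact Or.inr (Or.inl ⟨p i, by rw [h]⟩)
      · refine Or.inr (Or.inl ⟨p i - 1, ?_⟩)
        rw [h, sub_add_cancel, Sym2.eq_swap]
      · exact Or.inr (Or.inr ⟨i, by rw [h, Sym2.eq_swap]⟩)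

lemma PG.memx (i : ZMod n) : s(x i, x (i + 1)) ∈ G.edgeSet :=
  (hG.adjx i _).2 (Or.inl rfl)

lemma PG.memy (j : ZMod n) : s(y j, y (j + 1)) ∈ G.edgeSet := by
  have h := (hG.adjy (p.symm j) (y (p (p.symm j) + 1))).2 (Or.inl rfl)
  rw [Equiv.apply_symm_apply] at h
  exact h

lemma PG.memm (i : ZMod n) : s(x i, y (p i)) ∈ G.edgeSet :=
  (hG.adjx i _).2 (Or.inr (Or.inr rfl))

variable [NeZero n] (E : Set (ZMod n)) (a b : ZMod n → ZMod 2)

lemma PG.Wx (i : ZMod n) : Wt x y p E a b s(x i, x (i + 1)) = (a i).val := by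
  classical
  unfold Wt
  have h1 : (∑ k, if s(x i, x (i + 1)) = s(x k, x (k + 1)) then (a k).val else 0) = (a i).val := by
    rw [Finset.sum_eq_single i]
    · rw [if_pos rfl]
    · intro k _ hk
      rw [if_neg]
      rw [hG.exx]
      exact fun h => hk h.symm
    · intro h
      exact absurd (Finset.mem_univ i) h
  have h2 : (∑ j, if s(x i, x (i + 1)) = s(y j, y (j + 1)) then (b j).val else 0) = 0 :=
    Finset.sum_eq_zero fun j _ => if_neg (hG.exy _ _ _ _)
  have h3 : (∑ k, if s(x i, x (i + 1)) = s(x k, y (p k)) then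
      (if k ∈ E then 0 else (a (k - 1)).val + (a k).val) else 0) = 0 :=
    Finset.sum_eq_zero fun j _ => if_neg (hG.exm _ _ _ _)
  rw [h1, h2, h3, add_zero, add_zero]

lemma PG.Wy (j : ZMod n) : Wt x y p E a b s(y j, y (j + 1)) = (b j).val := by
  classical
  unfold Wt
  have h1 : (∑ k, if s(y j, y (j + 1)) = s(x k, x (k + 1)) then (a k).val else 0) = 0 :=
    Finset.sum_eq_zero fun k _ => if_neg (hG.exy _ _ _ _).symm
  have h2 : (∑ k, if s(y j, y (j + 1)) = s(y k, y (k + 1)) then (b k).val else 0) =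
      (b j).val := by
    rw [Finset.sum_eq_single j]
    · rw [if_pos rfl]
    · intro k _ hk
      rw [if_neg]
      rw [hG.eyy]
      exact fun h => hk h.symm
    · intro h
      exact absurd (Finset.mem_univ j) h
  have h3 : (∑ k, if s(y j, y (j + 1)) = s(x k, y (p k)) then
      (if k ∈ E then 0 else (a (k - 1)).val + (a k).val) else 0) = 0 :=
    Finset.sum_eq_zero fun j _ => if_neg (hG.eym _ _ _ _)
  rw [h1, h2, h3, zero_add, add_zero]

open Classical in
lemma PG.Wm (i : ZMod n) : Wt x y p E a b s(x i, y (p i)) =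
    if i ∈ E then 0 else (a (i - 1)).val + (a i).val := by
  unfold Wt
  have h1 : (∑ k, if s(x i, y (p i)) = s(x k, x (k + 1)) then (a k).val else 0) = 0 :=
    Finset.sum_eq_zero fun k _ => if_neg (hG.exm _ _ _ _).symm
  have h2 : (∑ k, if s(x i, y (p i)) = s(y k, y (k + 1)) then (b k).val else 0) = 0 :=
    Finset.sum_eq_zero fun k _ => if_neg (hG.eym _ _ _ _).symm
  have h3 : (∑ k, if s(x i, y (p i)) = s(x k, y (p k)) then
      (if k ∈ E then 0 else (a (k - 1)).val + (a k).val) else 0) =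
        if i ∈ E then 0 else (a (i - 1)).val + (a i).val := by
    rw [Finset.sum_eq_single i]
    · rw [if_pos rfl]
    · intro k _ hk
      rw [if_neg]
      rw [hG.emm]
      exact fun h => hk h.symm
    · intro h
      exact absurd (Finset.mem_univ i) h
  rw [h1, h2, h3, zero_add, zero_add]

end

end Pool.Agent.H57.Code
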