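import Mathlib
import Pool.Agent.H57.Code.Gr

set_option autoImplicit false

/-!
The sub-weights of a permutation graph given by sets of edges of `C₁`, `C₂` are eulerian
(MP_a46c6f_co).
-/

namespace Pool.Agent.H57.Code

open SimpleGraph Pool.Agent.H5.Goddyn Pool.Agent.H98.TC Pool.Agent.H64.Pent

variable {V : Type*} {n : ℕ}

/-- `(a, b)` is even at both ends of every matching edge outside `E`, with the letter `0`, `x` or `y`
there, and passes straight along `C₁`, `C₂` at the matching edges in `E` -/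
def Hev (p : Equiv.Perm (ZMod n)) (E : Set (ZMod n)) (a b : ZMod n → ZMod 2) : Prop :=
  (∀ i, i ∉ E → (a (i - 1) = a i ∧ b (p i - 1) = a i ∧ b (p i) = a i) ∨
    (a (i - 1) + a i = 1 ∧ b (p i - 1) + b (p i) = 1)) ∧
  ∀ i ∈ E, a (i - 1) = a i ∧ b (p i - 1) = b (p i)

lemma even_three {u1 u2 u3 : V} (h12 : u1 ≠ u2) (h13 : u1 ≠ u3) (h23 : u2 ≠ u3) (p1 p2 p3 : Prop)
    (h : (¬ p1 ∧ ¬ p2 ∧ ¬ p3) ∨ (p1 ∧ p2 ∧ ¬ p3) ∨ (p1 ∧ ¬ p2 ∧ p3) ∨ (¬ p1 ∧ p2 ∧ p3)) :
    Even {u | (u = u1 ∧ p1) ∨ (u = u2 ∧ p2) ∨ (u = u3 ∧ p3)}.ncard := by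
  rcases h with ⟨h1, h2, h3⟩ | ⟨h1, h2, h3⟩ | ⟨h1, h2, h3⟩ | ⟨h1, h2, h3⟩
  · have : {u | (u = u1 ∧ p1) ∨ (u = u2 ∧ p2) ∨ (u = u3 ∧ p3)} = ∅ := by
      ext u
      simp [h1, h2, h3]
    rw [this, Set.ncard_empty]
    exact Even.zero
  · have : {u | (u = u1 ∧ p1) ∨ (u = u2 ∧ p2) ∨ (u = u3 ∧ p3)} = {u1, u2} := by
      ext u
      simp [h1, h2, h3]
    rw [this, Set.ncard_pair h12]
    exact even_two
  · have : {u | (u = u1 ∧ p1) ∨ (u = u2 ∧ p2) ∨ (u = u3 ∧ p3)} = {u1, u3} := by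
      ext u
      simp [h1, h2, h3]
    rw [this, Set.ncard_pair h13]
    exact even_two
  · have : {u | (u = u1 ∧ p1) ∨ (u = u2 ∧ p2) ∨ (u = u3 ∧ p3)} = {u2, u3} := by
      ext u
      simp [h1, h2, h3]
    rw [this, Set.ncard_pair h23]
    exact even_two

lemma odd_val : ∀ c : ZMod 2, Odd c.val ↔ c = 1 := by decide

lemma odd_val_add : ∀ c d : ZMod 2, Odd (c.val + d.val) ↔ c + d = 1 := by decide

lemma supp_adj' {G : SimpleGraph V} (w : Sym2 V → ℕ) (u v : V) :
    (support G w).Adj u v ↔ G.Adj u v ∧ 0 < w s(u, v) := by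
  unfold Pool.Agent.H98.TC.support
  rw [fromEdgeSet_adj]
  constructor
  · rintro ⟨⟨h1, h2⟩, h3⟩
    exact ⟨h1, h2⟩
  · rintro ⟨h1, h2⟩
    exact ⟨⟨h1, h2⟩, h1.ne⟩

section

variable {G : SimpleGraph V} {x y : ZMod n → V} {p : Equiv.Perm (ZMod n)} (hG : PG G x y p)
  [NeZero n] (E : Set (ZMod n)) (a b : ZMod n → ZMod 2)
include hG

lemma PG.Wx' (i : ZMod n) : Wt x y p E a b s(x i, x (i - 1)) = (a (i - 1)).val := by
  have h := hG.Wx E a b (i - 1)
  rwa [sub_add_cancel, Sym2.eq_swap] at h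

lemma PG.Wy' (j : ZMod n) : Wt x y p E a b s(y j, y (j - 1)) = (b (j - 1)).val := by
  have h := hG.Wy E a b (j - 1)
  rwa [sub_add_cancel, Sym2.eq_swap] at h

open Classical in
lemma PG.Wm' (i : ZMod n) : Wt x y p E a b s(y (p i), x i) =
    if i ∈ E then 0 else (a (i - 1)).val + (a i).val := by
  rw [Sym2.eq_swap, hG.Wm]

theorem PG.eulerian (hev : Hev p E a b) :
    Eulerian (support G (Wt x y p E a b)) (Wt x y p E a b) := by
  classical
  intro v
  rcases hG.cov v with ⟨i, rfl⟩ | ⟨i, rfl⟩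
  · have hs : {u | (support G (Wt x y p E a b)).Adj (x i) u ∧ Odd (Wt x y p E a b s(x i, u))} =
        {u | (u = x (i + 1) ∧ a i = 1) ∨ (u = x (i - 1) ∧ a (i - 1) = 1) ∨
          (u = y (p i) ∧ (i ∉ E ∧ a (i - 1) + a i = 1))} := by
      ext u
      rw [Set.mem_ofPred_eq, Set.mem_ofPred_eq, supp_adj', hG.adjx]
      constructor
      · rintro ⟨⟨h1 | h1 | h1, h2⟩, h3⟩
        · subst h1
          rw [hG.Wx, odd_val] at h3
          exact Or.inl ⟨rfl, h3⟩
        · subst h1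
          rw [hG.Wx', odd_val] at h3
          exact Or.inr (Or.inl ⟨rfl, h3⟩)
        · subst h1
          rw [hG.Wm] at h3
          by_cases hE : i ∈ E
          · rw [if_pos hE] at h3
            exact absurd h3 (by decide)
          · rw [if_neg hE, odd_val_add] at h3
            exact Or.inr (Or.inr ⟨rfl, hE, h3⟩)
      · rintro (⟨h1, h2⟩ | ⟨h1, h2⟩ | ⟨h1, hE, h2⟩)
        · subst h1
          rw [hG.Wx, odd_val, h2]
          exact ⟨⟨Or.inl rfl, by decide⟩, rfl⟩
        · subst h1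
          rw [hG.Wx', odd_val, h2]
          exact ⟨⟨Or.inr (Or.inl rfl), by decide⟩, rfl⟩
        · subst h1
          rw [hG.Wm, if_neg hE, odd_val_add]
          exact ⟨⟨Or.inr (Or.inr rfl), ((odd_val_add _ _).2 h2).pos⟩, h2⟩
    rw [hs]
    refine even_three ?_ ?_ ?_ _ _ _ ?_
    · exact fun h => two_ne' hG.hn i (hG.ix h)
    · exact hG.hxy _ _
    · exact hG.hxy _ _
    · by_cases hE : i ∈ E
      · have h1 := (hev.2 i hE).1
        generalize a (i - 1) = x1 at *
        generalize a i = x2 at *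
        subst h1
        rcases (show ∀ c : ZMod 2, c = 0 ∨ c = 1 by decide) x1 with h | h <;> subst h <;>
          simp [hE]
      · generalize a (i - 1) = x1 at *
        generalize a i = x2 at *
        rcases (show ∀ c : ZMod 2, c = 0 ∨ c = 1 by decide) x1 with h | h <;>
        rcases (show ∀ c : ZMod 2, c = 0 ∨ c = 1 by decide) x2 with h' | h' <;>
        subst h <;> subst h' <;> simp [hE]
  · have hpar : i ∉ E → (a (i - 1) + a i = 1 ↔ b (p i - 1) + b (p i) = 1) := by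
      intro hE
      rcases hev.1 i hE with ⟨h1, h2, h3⟩ | ⟨h1, h2⟩
      · rw [h1, h2, h3]
      · rw [h1, h2]
    have hs : {u | (support G (Wt x y p E a b)).Adj (y (p i)) u ∧
        Odd (Wt x y p E a b s(y (p i), u))} =
        {u | (u = y (p i + 1) ∧ b (p i) = 1) ∨ (u = y (p i - 1) ∧ b (p i - 1) = 1) ∨
          (u = x i ∧ (i ∉ E ∧ b (p i - 1) + b (p i) = 1))} := by
      ext u
      rw [Set.mem_ofPred_eq, Set.mem_ofPred_eq, supp_adj', hG.adjy]
      constructor
      · rintro ⟨⟨h1 | h1 | h1, h2⟩, h3⟩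
        · subst h1
          rw [hG.Wy, odd_val] at h3
          exact Or.inl ⟨rfl, h3⟩
        · subst h1
          rw [hG.Wy', odd_val] at h3
          exact Or.inr (Or.inl ⟨rfl, h3⟩)
        · subst h1
          rw [hG.Wm'] at h3
          by_cases hE : i ∈ E
          · rw [if_pos hE] at h3
            exact absurd h3 (by decide)
          · rw [if_neg hE, odd_val_add] at h3
            exact Or.inr (Or.inr ⟨rfl, hE, (hpar hE).1 h3⟩)
      · rintro (⟨h1, h2⟩ | ⟨h1, h2⟩ | ⟨h1, hE, h2⟩)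
        · subst h1
          rw [hG.Wy, odd_val, h2]
          exact ⟨⟨Or.inl rfl, by decide⟩, rfl⟩
        · subst h1
          rw [hG.Wy', odd_val, h2]
          exact ⟨⟨Or.inr (Or.inl rfl), by decide⟩, rfl⟩
        · subst h1
          have h3 := (hpar hE).2 h2
          rw [hG.Wm', if_neg hE, odd_val_add]
          exact ⟨⟨Or.inr (Or.inr rfl), ((odd_val_add _ _).2 h3).pos⟩, h3⟩
    rw [hs]
    refine even_three ?_ ?_ ?_ _ _ _ ?_
    · exact fun h => two_ne' hG.hn (p i) (hG.iy h)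
    · exact (hG.hxy _ _).symm
    · exact (hG.hxy _ _).symm
    · by_cases hE : i ∈ E
      · have h1 := (hev.2 i hE).2
        generalize b (p i - 1) = x1 at *
        generalize b (p i) = x2 at *
        subst h1
        rcases (show ∀ c : ZMod 2, c = 0 ∨ c = 1 by decide) x1 with h | h <;> subst h <;>
          simp [hE]
      · clear hs hpar
        generalize b (p i - 1) = x1 at *
        generalize b (p i) = x2 at *
        rcases (show ∀ c : ZMod 2, c = 0 ∨ c = 1 by decide) x1 with h | h <;>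
        rcases (show ∀ c : ZMod 2, c = 0 ∨ c = 1 by decide) x2 with h' | h' <;>
        subst h <;> subst h' <;> simp [hE]

end

end Pool.Agent.H57.Code
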