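import Mathlib
import Pool.Agent.H57.Code.Eul
import Pool.Agent.H98.Code.AA

set_option autoImplicit false

/-!
The classes of a partial state of a permutation graph (MP_a46c6f_co).
-/

namespace Pool.Agent.H57.Code

open Pool.Agent.H98.Code

variable {n : ℕ}

/-- the edges of `C₁` and `C₂` -/
abbrev Tok (n : ℕ) := ZMod n ⊕ ZMod n

/-- edges of `C₁`, `C₂` joined at a matching edge by the partial state `(E, P, s)` -/
inductive Gen (p : Equiv.Perm (ZMod n)) (E P : Set (ZMod n)) (s : ZMod n → K) : Tok n → Tok n → Prop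
  | e1 (i : ZMod n) (h : i ∈ E) : Gen p E P s (Sum.inl (i - 1)) (Sum.inl i)
  | e2 (i : ZMod n) (h : i ∈ E) : Gen p E P s (Sum.inr (p i - 1)) (Sum.inr (p i))
  | x1 (i : ZMod n) (h : i ∈ P) (hs : (s i).2 = 0) : Gen p E P s (Sum.inl (i - 1)) (Sum.inr (p i - 1))
  | x2 (i : ZMod n) (h : i ∈ P) (hs : (s i).2 = 0) : Gen p E P s (Sum.inl i) (Sum.inr (p i))
  | y1 (i : ZMod n) (h : i ∈ P) (hs : (s i).2 = 1) : Gen p E P s (Sum.inl (i - 1)) (Sum.inr (p i))
  | y2 (i : ZMod n) (h : i ∈ P) (hs : (s i).2 = 1) : Gen p E P s (Sum.inl i) (Sum.inr (p i - 1))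
  | f1 (i : ZMod n) (h : i ∉ E) (h' : i ∉ P) : Gen p E P s (Sum.inl (i - 1)) (Sum.inl i)
  | f2 (i : ZMod n) (h : i ∉ E) (h' : i ∉ P) : Gen p E P s (Sum.inl i) (Sum.inr (p i - 1))
  | f3 (i : ZMod n) (h : i ∉ E) (h' : i ∉ P) : Gen p E P s (Sum.inl i) (Sum.inr (p i))

/-- `f` is constant on the classes -/
def St (p : Equiv.Perm (ZMod n)) (E P : Set (ZMod n)) (s : ZMod n → K) (f : Tok n → ZMod 2) : Prop :=
  ∀ t t', Gen p E P s t t' → f t = f t'

/-- the same class -/
def Rel (p : Equiv.Perm (ZMod n)) (E P : Set (ZMod n)) (s : ZMod n → K) (t t' : Tok n) : Prop :=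
  ∀ f, St p E P s f → f t = f t'

open Classical in
/-- the indicator of the class of `t` -/
noncomputable def cl (p : Equiv.Perm (ZMod n)) (E P : Set (ZMod n)) (s : ZMod n → K) (t : Tok n)
    (t' : Tok n) : ZMod 2 :=
  if Rel p E P s t t' then 1 else 0

section
variable {p : Equiv.Perm (ZMod n)} {E P : Set (ZMod n)} {s : ZMod n → K}

lemma Rel.refl (t : Tok n) : Rel p E P s t t := fun _ _ => rfl

lemma Rel.symm {t t' : Tok n} (h : Rel p E P s t t') : Rel p E P s t' t :=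
  fun f hf => (h f hf).symm

lemma Rel.trans {t t' t'' : Tok n} (h : Rel p E P s t t') (h' : Rel p E P s t' t'') :
    Rel p E P s t t'' := fun f hf => (h f hf).trans (h' f hf)

lemma st_cl (t : Tok n) : St p E P s (cl p E P s t) := by
  intro t1 t2 h
  have h1 : Rel p E P s t1 t2 := fun f hf => hf _ _ h
  unfold cl
  by_cases h2 : Rel p E P s t t1
  · rw [if_pos h2, if_pos (h2.trans h1)]
  · rw [if_neg h2, if_neg]
    exact fun h3 => h2 (h3.trans h1.symm)

lemma cl_self (t : Tok n) : cl p E P s t t = 1 := if_pos (Rel.refl t)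

lemma cl_eq_of {t t' : Tok n} (h : cl p E P s t t' = 1) : cl p E P s t = cl p E P s t' := by
  have h1 : Rel p E P s t t' := by
    by_contra hc
    unfold cl at h
    rw [if_neg hc] at h
    exact absurd h (by decide)
  funext t''
  unfold cl
  by_cases h2 : Rel p E P s t t''
  · rw [if_pos h2, if_pos (h1.symm.trans h2)]
  · rw [if_neg h2, if_neg]
    exact fun h3 => h2 (h1.trans h3)

lemma z2' : ∀ c : ZMod 2, c = 0 ∨ c = 1 := by decide

lemma kcases (u v : K) (hv : v.1 = 1) (h : u = 0 ∨ u = v) : u.2 = v.2 * u.1 := by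
  rcases h with h | h
  · rw [h]
    simp
  · rw [h, hv, mul_one]

/-- the edge set of a word below the partial state which is `0` outside is constant on classes -/
lemma st_of_word {a b : ZMod n → ZMod 2} (hev : Ev p a b) (hP : ∀ i ∈ P, (s i).1 = 1)
    (hbel : BelowOn E P s (word p a b)) (h0 : ∀ w, w ∉ E → w ∉ P → word p a b w = 0) :
    St p E P s (Sum.elim a b) := by
  have key : ∀ x1 x2 x3 x4 : ZMod 2, x1 + x2 = x3 + x4 → (x1 + x2 = 0) → (x1 = x2 ∧ x3 = x4) := by
    decide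
  have keyx : ∀ x1 x2 x3 x4 : ZMod 2, x1 + x2 = x3 + x4 → x2 + x4 = 0 → x1 = x3 ∧ x2 = x4 := by
    decide
  have keyy : ∀ x1 x2 x3 x4 : ZMod 2, x1 + x2 = x3 + x4 → x2 + x4 = 1 * (x1 + x2) →
      x1 = x4 ∧ x2 = x3 := by
    decide
  have keyf : ∀ x1 x2 x3 x4 : ZMod 2, x1 + x2 = x3 + x4 → x1 + x2 = 0 → x2 + x4 = 0 →
      x1 = x2 ∧ x2 = x3 ∧ x2 = x4 := by
    decide
  intro t t' h
  cases h with
  | e1 i h => exact (key _ _ _ _ (hev i) (hbel.1 i h)).1
  | e2 i h => exact (key _ _ _ _ (hev i) (hbel.1 i h)).2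
  | x1 i h hs =>
    have h1 := kcases _ _ (hP i h) (hbel.2 i h)
    rw [hs, zero_mul] at h1
    exact (keyx _ _ _ _ (hev i) h1).1
  | x2 i h hs =>
    have h1 := kcases _ _ (hP i h) (hbel.2 i h)
    rw [hs, zero_mul] at h1
    exact (keyx _ _ _ _ (hev i) h1).2
  | y1 i h hs =>
    have h1 := kcases _ _ (hP i h) (hbel.2 i h)
    rw [hs] at h1
    exact (keyy _ _ _ _ (hev i) h1).1
  | y2 i h hs =>
    have h1 := kcases _ _ (hP i h) (hbel.2 i h)
    rw [hs] at h1
    exact (keyy _ _ _ _ (hev i) h1).2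
  | f1 i h h' =>
    have h1 := h0 i h h'
    exact (keyf _ _ _ _ (hev i) (congrArg Prod.fst h1) (congrArg Prod.snd h1)).1
  | f2 i h h' =>
    have h1 := h0 i h h'
    exact (keyf _ _ _ _ (hev i) (congrArg Prod.fst h1) (congrArg Prod.snd h1)).2.1
  | f3 i h h' =>
    have h1 := h0 i h h'
    exact (keyf _ _ _ _ (hev i) (congrArg Prod.fst h1) (congrArg Prod.snd h1)).2.2

/-- at a place of `P` of a covered partial state the two edges of `C₁` are in different classes -/
lemma sep_of_covered (hcov : Covered (Lp p) E P s) {i : ZMod n} (hi : i ∈ P) :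
    ¬ Rel p E P s (Sum.inl (i - 1)) (Sum.inl i) := by
  intro hrel
  obtain ⟨hd, hs, hc⟩ := hcov
  obtain ⟨u, hu, hb, h0, hne⟩ := hc i hi
  obtain ⟨a, b, hev, rfl⟩ := hu
  have h1 := hrel _ (st_of_word hev hs hb h0)
  have h2 : a (i - 1) = a i := h1
  have h3 := hb.2 i hi
  rcases h3 with h3 | h3
  · exact hne h3
  · have h4 := congrArg Prod.fst h3
    rw [hs i hi] at h4
    have h5 : a (i - 1) + a i = 1 := h4
    rw [h2] at h5
    generalize a i = c at h5
    revert c
    decide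

/-- the class of `t` does not contain both edges of `C₁` at a place of `P` -/
lemma cl_sep (hcov : Covered (Lp p) E P s) (t : Tok n) {i : ZMod n} (hi : i ∈ P) :
    ¬ (cl p E P s t (Sum.inl (i - 1)) = 1 ∧ cl p E P s t (Sum.inl i) = 1) := by
  rintro ⟨h1, h2⟩
  apply sep_of_covered hcov hi
  have h3 : Rel p E P s t (Sum.inl (i - 1)) := by
    by_contra hc
    unfold cl at h1
    rw [if_neg hc] at h1
    exact absurd h1 (by decide)
  have h4 : Rel p E P s t (Sum.inl i) := by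
    by_contra hc
    unfold cl at h2
    rw [if_neg hc] at h2
    exact absurd h2 (by decide)
  exact h3.symm.trans h4

/-- the class of `t` as a pair of edge sets -/
noncomputable def ca (p : Equiv.Perm (ZMod n)) (E P : Set (ZMod n)) (s : ZMod n → K) (t : Tok n)
    (i : ZMod n) : ZMod 2 := cl p E P s t (Sum.inl i)

/-- the class of `t` as a pair of edge sets -/
noncomputable def cb (p : Equiv.Perm (ZMod n)) (E P : Set (ZMod n)) (s : ZMod n → K) (t : Tok n)
    (j : ZMod n) : ZMod 2 := cl p E P s t (Sum.inr j)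

lemma c_E (t : Tok n) {i : ZMod n} (h : i ∈ E) :
    ca p E P s t (i - 1) = ca p E P s t i ∧ cb p E P s t (p i - 1) = cb p E P s t (p i) :=
  ⟨st_cl t _ _ (Gen.e1 i h), st_cl t _ _ (Gen.e2 i h)⟩

lemma c_X (t : Tok n) {i : ZMod n} (h : i ∈ P) (hs : (s i).2 = 0) :
    ca p E P s t (i - 1) = cb p E P s t (p i - 1) ∧ ca p E P s t i = cb p E P s t (p i) :=
  ⟨st_cl t _ _ (Gen.x1 i h hs), st_cl t _ _ (Gen.x2 i h hs)⟩

lemma c_Y (t : Tok n) {i : ZMod n} (h : i ∈ P) (hs : (s i).2 = 1) :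
    ca p E P s t (i - 1) = cb p E P s t (p i) ∧ ca p E P s t i = cb p E P s t (p i - 1) :=
  ⟨st_cl t _ _ (Gen.y1 i h hs), st_cl t _ _ (Gen.y2 i h hs)⟩

lemma c_F (t : Tok n) {i : ZMod n} (h : i ∉ E) (h' : i ∉ P) :
    ca p E P s t (i - 1) = ca p E P s t i ∧ cb p E P s t (p i - 1) = ca p E P s t i ∧
      cb p E P s t (p i) = ca p E P s t i :=
  ⟨st_cl t _ _ (Gen.f1 i h h'), (st_cl t _ _ (Gen.f2 i h h')).symm,
    (st_cl t _ _ (Gen.f3 i h h')).symm⟩

lemma c_sep (hcov : Covered (Lp p) E P s) (t : Tok n) {i : ZMod n} (hi : i ∈ P) :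
    ¬ (ca p E P s t (i - 1) = 1 ∧ ca p E P s t i = 1) := cl_sep hcov t hi

lemma c_hev (hcov : Covered (Lp p) E P s) (t : Tok n) :
    Hev p E (ca p E P s t) (cb p E P s t) := by
  refine ⟨?_, fun i hi => c_E t hi⟩
  intro i hE
  by_cases hP : i ∈ P
  · have h1 := c_sep hcov t hP
    rcases z2' (s i).2 with h2 | h2
    · obtain ⟨h3, h4⟩ := c_X (E := E) t hP h2
      rw [← h3, ← h4]
      generalize ca p E P s t (i - 1) = x1 at *
      generalize ca p E P s t i = x2 at *
      clear h3 h4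
      revert x1 x2
      decide
    · obtain ⟨h3, h4⟩ := c_Y (E := E) t hP h2
      rw [← h3, ← h4]
      generalize ca p E P s t (i - 1) = x1 at *
      generalize ca p E P s t i = x2 at *
      clear h3 h4
      revert x1 x2
      decide
  · exact Or.inl (c_F t hE hP)

end

end Pool.Agent.H57.Code
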