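import Mathlib
import Pool.Agent.H57.Code.Cls

set_option autoImplicit false

/-!
A bridge of a class of a covered partial state gives a word with exactly one letter `z`
(MP_a46c6f_co).
-/

namespace Pool.Agent.H57.Code

open Pool.Agent.H98.Code

variable {n : ℕ} {p : Equiv.Perm (ZMod n)} {E P : Set (ZMod n)} {s : ZMod n → K}

/-- the side of a bridge of the class of `t` gives a word with the letter `z` exactly at the bridge -/
theorem word_of_side (hcov : Covered (Lp p) E P s) (t : Tok n) (g : ZMod n) (hgE : g ∉ E)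
    (h1 : ca p E P s t (g - 1) = 1) (h2 : ca p E P s t g = 1) (h3 : cb p E P s t (p g - 1) = 1)
    (h4 : cb p E P s t (p g) = 1) (X Y : ZMod n → ZMod 2) (hXg : X g = 1) (hYg : Y (p g) = 0)
    (hM : ∀ i, i ≠ g → i ∉ E → (ca p E P s t (i - 1) = 1 ∨ ca p E P s t i = 1) → X i = Y (p i))
    (hX : ∀ i, ca p E P s t i = 1 → X i = X (i + 1))
    (hY : ∀ j, cb p E P s t j = 1 → Y j = Y (j + 1)) :
    g ∉ P ∧ ∃ u ∈ Lp p, BelowOn E P s u ∧ u g = z ∧
      ∀ w, w ∉ E → w ∉ P → w ≠ g → u w = 0 := by
  have hgP : g ∉ P := fun h => c_sep hcov t h ⟨h1, h2⟩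
  have hev := c_hev hcov t
  obtain ⟨hd, hs, hc⟩ := id hcov
  have fX : ∀ i, ca p E P s t (i - 1) * X (i - 1) = ca p E P s t (i - 1) * X i := by
    intro i
    rcases z2' (ca p E P s t (i - 1)) with h | h
    · rw [h, zero_mul, zero_mul]
    · have := hX _ h
      rw [sub_add_cancel] at this
      rw [this]
  have fY : ∀ i, cb p E P s t (p i - 1) * Y (p i - 1) = cb p E P s t (p i - 1) * Y (p i) := by
    intro i
    rcases z2' (cb p E P s t (p i - 1)) with h | h
    · rw [h, zero_mul, zero_mul]
    · have := hY _ h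
      rw [sub_add_cancel] at this
      rw [this]
  have hEv : Ev p (fun i => ca p E P s t i * X i) (fun j => cb p E P s t j * Y j) := by
    intro i
    show ca p E P s t (i - 1) * X (i - 1) + ca p E P s t i * X i =
      cb p E P s t (p i - 1) * Y (p i - 1) + cb p E P s t (p i) * Y (p i)
    rw [fX, fY]
    by_cases hE : i ∈ E
    · obtain ⟨e1, e2⟩ := hev.2 i hE
      rw [e1, e2, CharTwo.add_self_eq_zero, CharTwo.add_self_eq_zero]
    · by_cases hg : i = g
      · subst hg
        rw [h1, h2, h3, h4, CharTwo.add_self_eq_zero, CharTwo.add_self_eq_zero]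
      · have hm := hM i hg hE
        have h5 := hev.1 i hE
        generalize ca p E P s t (i - 1) = x1 at *
        generalize ca p E P s t i = x2 at *
        generalize cb p E P s t (p i - 1) = x3 at *
        generalize cb p E P s t (p i) = x4 at *
        generalize X i = x5 at *
        generalize Y (p i) = x6 at *
        clear hX hY fX fY hM hXg hYg hev h1 h2 h3 h4
        revert x1 x2 x3 x4 x5 x6
        decide
  have hval : ∀ i, word p (fun i => ca p E P s t i * X i) (fun j => cb p E P s t j * Y j) i =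
      (ca p E P s t (i - 1) * X i + ca p E P s t i * X i,
        ca p E P s t i * X i + cb p E P s t (p i) * Y (p i)) := by
    intro i
    show (ca p E P s t (i - 1) * X (i - 1) + ca p E P s t i * X i, _) = _
    rw [fX]
  refine ⟨hgP, _, word_mem p _ _ hEv, ⟨?_, ?_⟩, ?_, ?_⟩
  · intro i hi
    rw [hval, (hev.2 i hi).1]
    show ca p E P s t i * X i + ca p E P s t i * X i = 0
    exact CharTwo.add_self_eq_zero _
  · intro i hi
    have hE : i ∉ E := fun h => Set.disjoint_left.1 hd h hi
    have hg : i ≠ g := fun h => hgP (h ▸ hi)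
    have hm := hM i hg hE
    have h5 := c_sep hcov t hi
    rw [hval]
    have hsi : s i = (1, (s i).2) := Prod.ext (hs i hi) rfl
    rcases z2' (s i).2 with h6 | h6
    · obtain ⟨h7, h8⟩ := c_X (E := E) t hi h6
      rw [hsi, h6, ← h8]
      clear hsi h6 h7 h8 hval hEv fX fY hX hY hM hXg hYg hev h1 h2 h3 h4
      generalize ca p E P s t (i - 1) = x1 at *
      generalize ca p E P s t i = x2 at *
      generalize X i = x5 at *
      generalize Y (p i) = x6 at *
      revert x1 x2 x5 x6
      decide
    · obtain ⟨h7, h8⟩ := c_Y (E := E) t hi h6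
      rw [hsi, h6, ← h7]
      clear hsi h6 h7 h8 hval hEv fX fY hX hY hM hXg hYg hev h1 h2 h3 h4
      generalize ca p E P s t (i - 1) = x1 at *
      generalize ca p E P s t i = x2 at *
      generalize X i = x5 at *
      generalize Y (p i) = x6 at *
      revert x1 x2 x5 x6
      decide
  · rw [hval, h1, h2, h4, hXg, hYg]
    decide
  · intro i hE hP hg
    have hm := hM i hg hE
    obtain ⟨h7, h8, h9⟩ := c_F (s := s) t hE hP
    rw [hval, h9, h7]
    rw [h7] at hm
    clear h7 h8 h9 hval hEv fX fY hX hY hM hXg hYg hev h1 h2 h3 h4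
    generalize ca p E P s t i = x2 at *
    generalize X i = x5 at *
    generalize Y (p i) = x6 at *
    revert x2 x5 x6
    decide

end Pool.Agent.H57.Code
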